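import Mathlib

/-!
Orthogonally additive operators: an example where the join `S ∨ T` exists but is not given by the
pointwise formula.
-/

open Finset

namespace Pool.Agent.V11252.OA

/-- The set of orthogonally additive maps from `E` to `F`. -/
def OrthAdd (E F : Type) [AddCommGroup E] [Lattice E] [AddCommGroup F] : Set (E → F) :=
  {T | ∀ x y : E, |x| ⊓ |y| = 0 → T (x + y) = T x + T y}

/-- The set of all `S u + T v`, where `x` is the disjoint sum of `u` and `v`. -/
def splitSums {E F : Type} [AddCommGroup E] [Lattice E] [AddCommGroup F] (S T : E → F) (x : E) :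
    Set F :=
  {w | ∃ u v : E, u + v = x ∧ |u| ⊓ |v| = 0 ∧ w = S u + T v}

/-! ### Periodic sequences -/

/-- Periodic real sequences. -/
def Per : Submodule ℝ (ℕ → ℝ) where
  carrier := {f | ∃ N, 0 < N ∧ Function.Periodic f N}
  add_mem' := by
    rintro f g ⟨N, hN, hf⟩ ⟨M, hM, hg⟩
    refine ⟨N * M, Nat.mul_pos hN hM, ?_⟩
    have h1 : Function.Periodic f (N * M) := by
      rw [mul_comm]; exact_mod_cast hf.nat_mul M
    have h2 : Function.Periodic g (N * M) := by exact_mod_cast hg.nat_mul N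
    exact h1.add h2
  zero_mem' := ⟨1, one_pos, fun x => rfl⟩
  smul_mem' := by
    rintro c f ⟨N, hN, hf⟩
    exact ⟨N, hN, fun x => by simp [hf x]⟩

lemma mem_Per {f : ℕ → ℝ} : f ∈ Per ↔ ∃ N, 0 < N ∧ Function.Periodic f N := Iff.rfl

lemma per_mul {f : ℕ → ℝ} {N : ℕ} (h : Function.Periodic f N) (M : ℕ) :
    Function.Periodic f (N * M) := by
  rw [mul_comm]; exact_mod_cast h.nat_mul M

lemma per_dvd {f : ℕ → ℝ} {N M : ℕ} (h : Function.Periodic f N) (hd : N ∣ M) :
    Function.Periodic f M := by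
  obtain ⟨k, rfl⟩ := hd
  exact per_mul h k

lemma common {f g : ℕ → ℝ} (hf : f ∈ Per) (hg : g ∈ Per) :
    ∃ N, 0 < N ∧ Function.Periodic f N ∧ Function.Periodic g N := by
  obtain ⟨N, hN, hf⟩ := hf
  obtain ⟨M, hM, hg⟩ := hg
  exact ⟨N * M, Nat.mul_pos hN hM, per_dvd hf (dvd_mul_right _ _), per_dvd hg (dvd_mul_left _ _)⟩

lemma map₂_mem (φ : ℝ → ℝ → ℝ) {f g : ℕ → ℝ} (hf : f ∈ Per) (hg : g ∈ Per) :
    (fun n => φ (f n) (g n)) ∈ Per := by
  obtain ⟨N, hN, h1, h2⟩ := common hf hg
  exact ⟨N, hN, fun x => by simp only [h1 x, h2 x]⟩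

noncomputable instance : Lattice Per where
  sup f g := ⟨fun n => f.1 n ⊔ g.1 n, map₂_mem _ f.2 g.2⟩
  inf f g := ⟨fun n => f.1 n ⊓ g.1 n, map₂_mem _ f.2 g.2⟩
  le_sup_left f g := fun n => le_sup_left
  le_sup_right f g := fun n => le_sup_right
  sup_le f g h h1 h2 := fun n => sup_le (h1 n) (h2 n)
  inf_le_left f g := fun n => inf_le_left
  inf_le_right f g := fun n => inf_le_right
  le_inf f g h h1 h2 := fun n => le_inf (h1 n) (h2 n)

instance : IsOrderedAddMonoid Per := inferInstance

instance : PosSMulMono ℝ Per where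
  smul_le_smul_of_nonneg_left a ha f g h := fun n => mul_le_mul_of_nonneg_left (h n) ha

lemma sup_apply (f g : Per) (n : ℕ) : (f ⊔ g).1 n = f.1 n ⊔ g.1 n := rfl
lemma inf_apply (f g : Per) (n : ℕ) : (f ⊓ g).1 n = f.1 n ⊓ g.1 n := rfl
lemma abs_apply (f : Per) (n : ℕ) : (|f|).1 n = |f.1 n| := rfl

lemma disj_iff (f g : Per) : |f| ⊓ |g| = 0 ↔ ∀ n, f.1 n = 0 ∨ g.1 n = 0 := by
  constructor
  · intro h n
    have h1 : (|f| ⊓ |g|).1 n = 0 := by rw [h]; rfl
    rw [inf_apply, abs_apply, abs_apply] at h1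
    rcases le_total |f.1 n| |g.1 n| with h2 | h2
    · rw [inf_eq_left.2 h2, abs_eq_zero] at h1
      exact Or.inl h1
    · rw [inf_eq_right.2 h2, abs_eq_zero] at h1
      exact Or.inr h1
  · intro h
    apply Subtype.ext
    funext n
    rw [inf_apply, abs_apply, abs_apply]
    change _ = (0 : ℝ)
    rcases h n with h1 | h1
    · rw [h1, abs_zero]; exact inf_eq_left.2 (abs_nonneg _)
    · rw [h1, abs_zero]; exact inf_eq_right.2 (abs_nonneg _)

/-- The average over one period. -/
noncomputable def avg (f : ℕ → ℝ) (N : ℕ) : ℝ := (∑ x ∈ range N, f x) / N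

lemma avg_mul {f : ℕ → ℝ} {N : ℕ} (h : Function.Periodic f N) (M : ℕ) (hM : 0 < M) :
    avg f (N * M) = avg f N := by
  have key : ∑ x ∈ range (N * M), f x = M * ∑ x ∈ range N, f x := by
    clear hM
    induction M with
    | zero => simp
    | succ k ih =>
      rw [Nat.mul_succ, sum_range_add, ih]
      have : ∑ x ∈ range N, f (N * k + x) = ∑ x ∈ range N, f x := by
        refine sum_congr rfl fun x _ => ?_
        rw [add_comm]
        exact per_mul h k x
      rw [this]; push_cast; ring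
  rcases Nat.eq_zero_or_pos N with rfl | hN
  · simp
  unfold avg
  rw [key]
  push_cast
  field_simp

/-- The mean value of a periodic sequence. -/
noncomputable def meanFun (f : Per) : ℝ := avg f.1 (Classical.choose f.2)

lemma meanFun_eq (f : Per) {N : ℕ} (hN : 0 < N) (h : Function.Periodic f.1 N) :
    meanFun f = avg f.1 N := by
  unfold meanFun
  have h1 := Classical.choose_spec f.2
  set K := Classical.choose f.2
  rw [← avg_mul h1.2 N hN, mul_comm, avg_mul h K h1.1]

/-- The mean value, as a linear functional. -/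
noncomputable def mean : Per →ₗ[ℝ] ℝ where
  toFun := meanFun
  map_add' f g := by
    obtain ⟨N, hN, h1, h2⟩ := common f.2 g.2
    rw [meanFun_eq f hN h1, meanFun_eq g hN h2, meanFun_eq (f + g) hN (h1.add h2)]
    unfold avg
    rw [← add_div, ← sum_add_distrib]
    rfl
  map_smul' c f := by
    obtain ⟨N, hN, h1⟩ := f.2
    rw [meanFun_eq f hN h1, meanFun_eq (c • f) hN (fun x => by simp [h1 x])]
    unfold avg
    simp only [Submodule.coe_smul, Pi.smul_apply, smul_eq_mul, RingHom.id_apply]
    rw [← mul_sum, mul_div_assoc]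

lemma mean_eq (f : Per) {N : ℕ} (hN : 0 < N) (h : Function.Periodic f.1 N) :
    mean f = avg f.1 N := meanFun_eq f hN h

lemma mean_nonneg {f : Per} (hf : ∀ n, 0 ≤ f.1 n) : 0 ≤ mean f := by
  obtain ⟨N, hN, h1⟩ := f.2
  rw [mean_eq f hN h1]
  exact div_nonneg (sum_nonneg fun x _ => hf x) (Nat.cast_nonneg _)

lemma mean_mono {f g : Per} (h : ∀ n, f.1 n ≤ g.1 n) : mean f ≤ mean g := by
  have := mean_nonneg (f := g - f) (fun n => sub_nonneg.2 (h n))
  rw [map_sub] at this
  linarith

/-! ### Operators on periodic sequences -/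

/-- Restriction to a residue class. -/
def cut (N j : ℕ) (hN : 0 < N) : Per →ₗ[ℝ] Per where
  toFun f := ⟨fun n => if n % N = j then f.1 n else 0, by
    obtain ⟨M, hM, h⟩ := f.2
    refine ⟨N * M, Nat.mul_pos hN hM, fun x => ?_⟩
    have h1 : f.1 (x + N * M) = f.1 x := per_dvd h (dvd_mul_left M N) x
    simp [h1]⟩
  map_add' f g := by
    apply Subtype.ext; funext n
    by_cases h : n % N = j <;> simp [h]
  map_smul' c f := by
    apply Subtype.ext; funext n
    by_cases h : n % N = j <;> simp [h]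

lemma cut_apply (N j : ℕ) (hN : 0 < N) (f : Per) (n : ℕ) :
    (cut N j hN f).1 n = if n % N = j then f.1 n else 0 := rfl

/-- The periodic sequence agreeing with the given one on the first `N` numbers. -/
def rep (N : ℕ) (hN : 0 < N) : Per →ₗ[ℝ] Per where
  toFun f := ⟨fun n => f.1 (n % N), ⟨N, hN, fun x => by simp⟩⟩
  map_add' f g := rfl
  map_smul' c f := rfl

lemma rep_apply (N : ℕ) (hN : 0 < N) (f : Per) (n : ℕ) : (rep N hN f).1 n = f.1 (n % N) := rfl

lemma rep_eq (N : ℕ) (hN : 0 < N) (f : Per) (h : Function.Periodic f.1 N) : rep N hN f = f := by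
  apply Subtype.ext; funext n
  exact h.map_mod_nat n

/-! ### The space of functionals -/

/-- The functionals: dominated by the mean value, with small positive part. -/
def Good (ν : Per →ₗ[ℝ] ℝ) : Prop :=
  (∀ f : Per, (∀ n, 0 ≤ f.1 n) → ν f ≤ mean f) ∧
    ∃ δ : ℝ, 0 < δ ∧ ∀ f : Per, (∀ n, f.1 n = 0 ∨ f.1 n = 1) → ν f ≤ 1 / 2 - δ

/-- The set of functionals with the topology of pointwise convergence. -/
def X : Type := {ν : Per →ₗ[ℝ] ℝ // Good ν}

instance : TopologicalSpace X :=
  TopologicalSpace.induced (fun ν : X => (fun f : Per => ν.1 f)) inferInstance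

lemma continuous_eval (f : Per) : Continuous fun ν : X => ν.1 f :=
  (continuous_apply f).comp continuous_induced_dom

/-- The perturbed functional. -/
noncomputable def pert (ν : Per →ₗ[ℝ] ℝ) (N j K : ℕ) (hN : 0 < N) (hK : 0 < K) :
    Per →ₗ[ℝ] ℝ :=
  ν - ν ∘ₗ cut N j hN + mean ∘ₗ cut N j hN - (mean - ν) ∘ₗ cut N j hN ∘ₗ rep K hK

lemma pert_apply (ν : Per →ₗ[ℝ] ℝ) (N j K : ℕ) (hN : 0 < N) (hK : 0 < K) (f : Per) :
    pert ν N j K hN hK f = ν (f - cut N j hN f) + mean (cut N j hN f) -
      (mean (cut N j hN (rep K hK f)) - ν (cut N j hN (rep K hK f))) := by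
  simp [pert]

/-- The constant sequence one. -/
def one : Per := ⟨fun _ => 1, ⟨1, one_pos, fun _ => rfl⟩⟩

lemma mean_one : mean one = 1 := by
  rw [mean_eq one one_pos (fun _ => rfl)]
  simp [avg, one]

lemma mean_cut_one (N j : ℕ) (hN : 0 < N) (hj : j < N) : mean (cut N j hN one) = 1 / N := by
  rw [mean_eq _ hN (fun x => by simp [cut_apply, one])]
  unfold avg
  congr 1
  rw [sum_eq_single_of_mem j (mem_range.2 hj)]
  · simp [cut_apply, Nat.mod_eq_of_lt hj, one]
  · intro b hb hbj
    rw [cut_apply, Nat.mod_eq_of_lt (mem_range.1 hb), if_neg hbj]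

lemma pert_good {ν : Per →ₗ[ℝ] ℝ} (N j K : ℕ) (hN : 0 < N) (hK : 0 < K) (hj : j < N)
    (h1 : ∀ f : Per, (∀ n, 0 ≤ f.1 n) → ν f ≤ mean f) {δ : ℝ}
    (h2 : ∀ f : Per, (∀ n, f.1 n = 0 ∨ f.1 n = 1) → ν f ≤ 1 / 2 - δ) (hδ : 1 / (N : ℝ) < δ) :
    Good (pert ν N j K hN hK) := by
  have e1 : ∀ f : Per, (∀ n, 0 ≤ f.1 n) → 0 ≤ mean (cut N j hN (rep K hK f)) -
      ν (cut N j hN (rep K hK f)) := by
    intro f hf
    have := h1 (cut N j hN (rep K hK f)) (fun n => by
      rw [cut_apply, rep_apply]; split_ifs; exacts [hf _, le_rfl])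
    linarith
  constructor
  · intro f hf
    rw [pert_apply]
    have e2 := h1 (f - cut N j hN f) (fun n => by
      change 0 ≤ f.1 n - (cut N j hN f).1 n
      rw [cut_apply]; split_ifs
      · simp
      · simpa using hf n)
    rw [map_sub mean] at e2
    have := e1 f hf
    linarith
  · refine ⟨δ - 1 / N, by linarith, fun f hf => ?_⟩
    rw [pert_apply]
    have hf0 : ∀ n, 0 ≤ f.1 n := fun n => by rcases hf n with h | h <;> rw [h]; norm_num
    have e2 := h2 (f - cut N j hN f) (fun n => by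
      change f.1 n - (cut N j hN f).1 n = 0 ∨ f.1 n - (cut N j hN f).1 n = 1
      rw [cut_apply]; split_ifs
      · left; simp
      · simpa using hf n)
    have e3 : mean (cut N j hN f) ≤ mean (cut N j hN one) := by
      refine mean_mono fun n => ?_
      rw [cut_apply, cut_apply]
      split_ifs
      · rcases hf n with h | h <;> rw [h] <;> simp [one]
      · exact le_rfl
    rw [mean_cut_one N j hN hj] at e3
    have := e1 f hf0
    linarith

/-! ### The operators -/

/-- The space of continuous functions on `X`. -/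
abbrev F : Type := C(X, ℝ)

/-- The positive part. -/
noncomputable def pos (f : Per) : Per := f ⊔ 0

lemma pos_apply (f : Per) (n : ℕ) : (pos f).1 n = max (f.1 n) 0 := rfl

lemma pos_add {f g : Per} (h : |f| ⊓ |g| = 0) : pos (f + g) = pos f + pos g := by
  rw [disj_iff] at h
  apply Subtype.ext; funext n
  change max (f.1 n + g.1 n) 0 = max (f.1 n) 0 + max (g.1 n) 0
  rcases h n with h | h <;> simp [h]

/-- The operator `S`. -/
noncomputable def S (f : Per) : F := ⟨fun ν => ν.1 (pos f), continuous_eval _⟩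

/-- The join of `S` and `0`. -/
noncomputable def J (f : Per) : F := ContinuousMap.const X (mean (pos f))

lemma S_mem : S ∈ OrthAdd Per F := by
  intro f g h
  ext ν
  change ν.1 (pos (f + g)) = ν.1 (pos f) + ν.1 (pos g)
  rw [pos_add h, map_add]

lemma J_mem : J ∈ OrthAdd Per F := by
  intro f g h
  ext ν
  change mean (pos (f + g)) = mean (pos f) + mean (pos g)
  rw [pos_add h, map_add]

lemma zero_mem : (0 : Per → F) ∈ OrthAdd Per F := by
  intro f g _
  simp

lemma S_le_J : S ≤ J := by
  intro f ν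
  exact ν.2.1 (pos f) fun n => by rw [pos_apply]; exact le_max_right _ _

lemma zero_le_J : 0 ≤ J := by
  intro f ν
  exact mean_nonneg (f := pos f) fun n => by rw [pos_apply]; exact le_max_right _ _

/-- The key lower bound on a small residue class. -/
lemma key {U : Per → F} (hU : U ∈ OrthAdd Per F) (hS : S ≤ U) (h0 : 0 ≤ U) (ν : X)
    {δ : ℝ} (h2 : ∀ f : Per, (∀ n, f.1 n = 0 ∨ f.1 n = 1) → ν.1 f ≤ 1 / 2 - δ) (N j : ℕ)
    (hN : 0 < N) (hj : j < N) (hδ : 1 / (N : ℝ) < δ) (c : ℝ) :
    max c 0 * (1 / N) ≤ U (cut N j hN (c • one)) ν := by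
  rcases le_total c 0 with hc | hc
  · rw [max_eq_right hc, zero_mul]
    exact h0 _ ν
  rw [max_eq_left hc]
  -- the approximating functionals
  set K : ℕ → ℕ := fun k => N * (k + 1).factorial with hK
  have hK0 : ∀ k, 0 < K k := fun k => Nat.mul_pos hN (Nat.factorial_pos _)
  set μ : ℕ → X := fun k => ⟨pert ν.1 N j (K k) hN (hK0 k),
    pert_good N j (K k) hN (hK0 k) hj ν.2.1 h2 hδ⟩ with hμ
  have hlim : Filter.Tendsto μ Filter.atTop (nhds ν) := by
    rw [nhds_induced, Filter.tendsto_comap_iff, tendsto_pi_nhds]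
    intro f
    refine tendsto_const_nhds.congr' ?_
    obtain ⟨M, hM, hf⟩ := f.2
    filter_upwards [Filter.eventually_ge_atTop M] with k hk
    have hper : Function.Periodic f.1 (K k) := by
      refine per_dvd hf ?_
      exact (Nat.dvd_factorial hM (by omega)).trans (dvd_mul_left _ _)
    change ν.1 f = pert ν.1 N j (K k) hN (hK0 k) f
    rw [pert_apply, rep_eq _ _ f hper, map_sub]
    ring
  have hlim2 := ((U (cut N j hN (c • one))).continuous.tendsto ν).comp hlim
  have hlim3 : Filter.Tendsto (fun k : ℕ => c * (1 / N - 1 / ((k : ℝ) + 1)))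
      Filter.atTop (nhds (c * (1 / N - 0))) :=
    (tendsto_const_nhds.sub tendsto_one_div_add_atTop_nhds_zero_nat).const_mul c
  rw [sub_zero] at hlim3
  refine le_of_tendsto_of_tendsto' hlim3 hlim2 fun k => ?_
  -- the subset of the residue class
  set L : ℕ := K k * (k + 1) with hL
  have hL0 : 0 < L := Nat.mul_pos (hK0 k) (Nat.succ_pos _)
  set B : Per := ⟨fun n => if n % L < K k then 1 else 0, ⟨L, hL0, fun x => by simp⟩⟩ with hB
  have hmB : mean B = 1 / ((k : ℝ) + 1) := by
    rw [mean_eq B hL0 (fun x => by simp [hB])]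
    unfold avg
    have : ∑ x ∈ range L, B.1 x = K k := by
      rw [hB]
      simp only
      rw [sum_ite, sum_const_zero, add_zero, sum_const, nsmul_eq_mul, mul_one]
      congr 1
      have : filter (fun x => x % L < K k) (range L) = range (K k) := by
        ext x
        rw [mem_filter, mem_range, mem_range]
        constructor
        · rintro ⟨h1, h2⟩
          rwa [Nat.mod_eq_of_lt h1] at h2
        · intro h
          have : x < L := h.trans_le (Nat.le_mul_of_pos_right _ (Nat.succ_pos _))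
          exact ⟨this, by rwa [Nat.mod_eq_of_lt this]⟩
      rw [this, card_range]
    rw [this, hL]
    have := hK0 k
    push_cast
    field_simp
  -- split
  set g : Per := cut N j hN (c • one) with hg
  set g2 : Per := ⟨fun n => g.1 n * B.1 n, map₂_mem (fun a b => a * b) g.2 B.2⟩ with hg2
  set g1 : Per := g - g2 with hg1
  have hgn : ∀ n, g.1 n = if n % N = j then c else 0 := by
    intro n
    rw [hg, cut_apply]
    change (if n % N = j then c * 1 else 0) = _
    rw [mul_one]
  have hBn : ∀ n, B.1 n = if n % L < K k then 1 else 0 := fun n => rfl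
  have hg1n : ∀ n, g1.1 n = if n % L < K k then 0 else g.1 n := by
    intro n
    change g.1 n - g.1 n * B.1 n = _
    rw [hBn]
    split_ifs <;> simp
  have hg2n : ∀ n, g2.1 n = if n % L < K k then g.1 n else 0 := by
    intro n
    change g.1 n * B.1 n = _
    rw [hBn]
    split_ifs <;> simp
  have hdis : |g1| ⊓ |g2| = 0 := by
    rw [disj_iff]
    intro n
    rw [hg1n, hg2n]
    by_cases h : n % L < K k <;> simp [h]
  have hsum : g1 + g2 = g := by rw [hg1, sub_add_cancel]
  have hUg : U g = U g1 + U g2 := by rw [← hsum, hU g1 g2 hdis]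
  have h3 : (U g) (μ k) = U g1 (μ k) + U g2 (μ k) := by rw [hUg]; rfl
  have h4 : 0 ≤ U g2 (μ k) := h0 g2 (μ k)
  have h5 : (μ k).1 (pos g1) ≤ U g1 (μ k) := hS g1 (μ k)
  have h6 : pos g1 = g1 := by
    apply Subtype.ext; funext n
    rw [pos_apply, max_eq_left]
    rw [hg1n, hgn]
    split_ifs <;> simp [hc]
  have h7 : (μ k).1 g1 = mean g1 := by
    change pert ν.1 N j (K k) hN (hK0 k) g1 = _
    rw [pert_apply]
    have e1 : cut N j hN g1 = g1 := by
      apply Subtype.ext; funext n
      rw [cut_apply, hg1n, hgn]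
      split_ifs <;> simp_all
    have e2 : rep (K k) (hK0 k) g1 = 0 := by
      apply Subtype.ext; funext n
      rw [rep_apply, hg1n]
      have : n % K k % L = n % K k :=
        Nat.mod_eq_of_lt ((Nat.mod_lt _ (hK0 k)).trans_le
          (Nat.le_mul_of_pos_right _ (Nat.succ_pos _)))
      rw [this, if_pos (Nat.mod_lt _ (hK0 k))]
      rfl
    rw [e1, e2]
    simp
  have h8 : mean g = c * (1 / N) := by
    have : g = c • cut N j hN one := by rw [hg, map_smul]
    rw [this, map_smul, mean_cut_one N j hN hj, smul_eq_mul]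
  have h9 : mean g2 ≤ c * (1 / ((k : ℝ) + 1)) := by
    rw [← hmB, ← smul_eq_mul, ← map_smul]
    refine mean_mono fun n => ?_
    change g.1 n * B.1 n ≤ c * B.1 n
    have hB0 : 0 ≤ B.1 n := by rw [hBn]; split_ifs <;> norm_num
    refine mul_le_mul_of_nonneg_right ?_ hB0
    rw [hgn]; split_ifs
    exacts [le_rfl, hc]
  have h10 : mean g1 = mean g - mean g2 := by rw [hg1, map_sub]
  change c * (1 / N - 1 / ((k : ℝ) + 1)) ≤ U g (μ k)
  rw [h6, h7] at h5
  rw [h3]
  linarith

/-- Finite orthogonal additivity over residue classes. -/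
lemma sum_cut {U : Per → F} (hU : U ∈ OrthAdd Per F) (N : ℕ) (hN : 0 < N) (f : Per) (m : ℕ)
    (hm : m ≤ N) :
    U (∑ j ∈ range m, cut N j hN f) = ∑ j ∈ range m, U (cut N j hN f) := by
  have hU0 : U 0 = 0 := by
    have h := hU 0 0 (by rw [disj_iff]; intro n; exact Or.inl rfl)
    rw [add_zero] at h
    exact left_eq_add.1 h
  induction m with
  | zero => simpa using hU0
  | succ m ih =>
    rw [sum_range_succ, sum_range_succ, hU _ _ ?_, ih (by omega)]
    rw [disj_iff]
    intro n
    by_cases hn : n % N = m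
    · left
      have : (∑ j ∈ range m, cut N j hN f).1 n = ∑ j ∈ range m, (cut N j hN f).1 n := by
        rw [Submodule.coe_sum, Finset.sum_apply]
      rw [this]
      refine sum_eq_zero fun j hj => ?_
      rw [cut_apply, if_neg]
      rw [hn]
      exact (mem_range.1 hj).ne'
    · right
      rw [cut_apply, if_neg hn]

lemma sum_cut_eq (N : ℕ) (hN : 0 < N) (f : Per) : ∑ j ∈ range N, cut N j hN f = f := by
  apply Subtype.ext; funext n
  rw [Submodule.coe_sum, Finset.sum_apply, sum_eq_single_of_mem (n % N)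
    (mem_range.2 (Nat.mod_lt _ hN))]
  · rw [cut_apply, if_pos rfl]
  · intro b _ hb
    rw [cut_apply, if_neg (Ne.symm hb)]

lemma J_least {U : Per → F} (hU : U ∈ OrthAdd Per F) (hS : S ≤ U) (h0 : 0 ≤ U) : J ≤ U := by
  intro f ν
  change mean (pos f) ≤ U f ν
  obtain ⟨δ, hδ, h2⟩ := ν.2.2
  obtain ⟨M, hM, hf⟩ := f.2
  obtain ⟨m, hm⟩ := exists_nat_one_div_lt hδ
  set N : ℕ := M * (m + 1) with hN
  have hN0 : 0 < N := Nat.mul_pos hM (Nat.succ_pos _)
  have hNδ : 1 / (N : ℝ) < δ := by
    refine lt_of_le_of_lt ?_ hm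
    refine one_div_le_one_div_of_le (by positivity) ?_
    rw [hN]
    have : m + 1 ≤ M * (m + 1) := Nat.le_mul_of_pos_left _ hM
    exact_mod_cast this
  have hper : Function.Periodic f.1 N := per_mul hf _
  have e1 : U f ν = ∑ j ∈ range N, U (cut N j hN0 f) ν := by
    conv_lhs => rw [← sum_cut_eq N hN0 f]
    rw [sum_cut hU N hN0 f N le_rfl, ContinuousMap.coe_sum, Finset.sum_apply]
  have e2 : mean (pos f) = ∑ j ∈ range N, max (f.1 j) 0 * (1 / N) := by
    rw [mean_eq (pos f) hN0 (fun x => by rw [pos_apply, pos_apply, hper x])]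
    unfold avg
    rw [sum_div]
    refine sum_congr rfl fun j _ => ?_
    rw [pos_apply]; ring
  rw [e1, e2]
  refine sum_le_sum fun j hj => ?_
  have hj' := mem_range.1 hj
  have e3 : cut N j hN0 f = cut N j hN0 (f.1 j • one) := by
    apply Subtype.ext; funext n
    rw [cut_apply, cut_apply]
    by_cases h : n % N = j
    · rw [if_pos h, if_pos h]
      change f.1 n = f.1 j * 1
      rw [mul_one, ← h, hper.map_mod_nat]
    · rw [if_neg h, if_neg h]
  rw [e3]
  exact key hU hS h0 ν h2 N j hN0 hj' hNδ (f.1 j)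

lemma J_isLeast : IsLeast {U | U ∈ OrthAdd Per F ∧ S ≤ U ∧ (0 : Per → F) ≤ U} J :=
  ⟨⟨J_mem, S_le_J, zero_le_J⟩, fun _ h => J_least h.1 h.2.1 h.2.2⟩

/-- The constant function `1/2` is an upper bound for the sums at the constant sequence one. -/
lemma half_bound (w : F) (hw : w ∈ splitSums S (0 : Per → F) one) :
    w ≤ ContinuousMap.const X (1 / 2) := by
  obtain ⟨u, v, huv, hd, rfl⟩ := hw
  rw [disj_iff] at hd
  have hu : ∀ n, u.1 n = 0 ∨ u.1 n = 1 := by
    intro n
    have h1 : u.1 n + v.1 n = 1 := by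
      have : (u + v).1 n = 1 := by rw [huv]; rfl
      exact this
    rcases hd n with h | h
    · exact Or.inl h
    · right; rw [h, add_zero] at h1; exact h1
  intro ν
  change ν.1 (pos u) + 0 ≤ 1 / 2
  have hp : pos u = u := by
    apply Subtype.ext; funext n
    rw [pos_apply]
    rcases hu n with h | h <;> rw [h] <;> simp
  obtain ⟨δ, hδ, h2⟩ := ν.2.2
  rw [hp]
  linarith [h2 u hu]

/-- The space `X` is nonempty. -/
lemma good_zero : Good 0 := by
  refine ⟨fun f hf => by simpa using mean_nonneg hf, 1 / 2, by norm_num, fun f _ => by simp⟩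

lemma J_one_not_le : ¬ J one ≤ ContinuousMap.const X (1 / 2) := by
  intro h
  have h1 := h ⟨0, good_zero⟩
  change mean (pos one) ≤ 1 / 2 at h1
  have : pos one = one := by
    apply Subtype.ext; funext n
    rw [pos_apply]
    simp [one]
  rw [this, mean_one] at h1
  norm_num at h1

end Pool.Agent.V11252.OA
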